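import Pool.Agent.W823.QT.Stm

/-! # Project QT (helper823), task QT-DOM (helper311): stochastic domination for product weights -/

set_option autoImplicit false

namespace Pool.Agent.W311.QTDOM

open scoped ENNReal NNReal

theorem alg {a b w w' : ℝ≥0∞} (hab : a ≤ b) (hw : w ≤ w') :
    (a + w * b) * (1 + w') ≤ (a + w' * b) * (1 + w) := by
  obtain ⟨v, rfl⟩ := exists_add_of_le hab
  obtain ⟨u, rfl⟩ := exists_add_of_le hw
  have e : (a + (w + u) * (a + v)) * (1 + w) = (a + w * (a + v)) * (1 + (w + u)) + u * v := by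
    ring
  rw [e]
  exact le_self_add

theorem dom {α : Type} [DecidableEq α] (E : Finset α) (w w' : α → ℝ≥0∞)
    (hw : ∀ e ∈ E, w e ≤ w' e) : ∀ f : Finset α → ℝ≥0∞, (∀ S T, S ⊆ T → f S ≤ f T) →
    (∑ S ∈ E.powerset, (∏ e ∈ S, w e) * f S) * ∏ e ∈ E, (1 + w' e) ≤
      (∑ S ∈ E.powerset, (∏ e ∈ S, w' e) * f S) * ∏ e ∈ E, (1 + w e) := by
  induction E using Finset.induction_on with
  | empty => intro f _; simp
  | insert e E he ih =>
    intro f hf
    have ih' := ih (fun x hx => hw x (Finset.mem_insert_of_mem hx))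
    have key : ∀ u : α → ℝ≥0∞, ∑ S ∈ (insert e E).powerset, (∏ x ∈ S, u x) * f S =
        ∑ S ∈ E.powerset, (∏ x ∈ S, u x) * f S +
          u e * ∑ S ∈ E.powerset, (∏ x ∈ S, u x) * f (insert e S) := by
      intro u
      rw [Finset.sum_powerset_insert he]
      congr 1
      rw [Finset.mul_sum]
      refine Finset.sum_congr rfl fun S hS => ?_
      have heS : e ∉ S := fun h => he (Finset.mem_powerset.1 hS h)
      rw [Finset.prod_insert heS, mul_assoc]
    rw [key w, key w', Finset.prod_insert he, Finset.prod_insert he]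
    have h0 := ih' f hf
    have h1 := ih' (fun S => f (insert e S)) (fun S T hST => hf _ _ (Finset.insert_subset_insert e hST))
    have h2 : (∑ S ∈ E.powerset, (∏ x ∈ S, w' x) * f S) * ∏ x ∈ E, (1 + w x) ≤
        (∑ S ∈ E.powerset, (∏ x ∈ S, w' x) * f (insert e S)) * ∏ x ∈ E, (1 + w x) := by
      gcongr with S hS
      exact hf _ _ (Finset.subset_insert e S)
    set F0 := ∑ S ∈ E.powerset, (∏ x ∈ S, w x) * f S
    set F1 := ∑ S ∈ E.powerset, (∏ x ∈ S, w x) * f (insert e S)
    set F0' := ∑ S ∈ E.powerset, (∏ x ∈ S, w' x) * f S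
    set F1' := ∑ S ∈ E.powerset, (∏ x ∈ S, w' x) * f (insert e S)
    set Q := ∏ x ∈ E, (1 + w x)
    set Q' := ∏ x ∈ E, (1 + w' x)
    calc (F0 + w e * F1) * ((1 + w' e) * Q') = (F0 * Q' + w e * (F1 * Q')) * (1 + w' e) := by ring
      _ ≤ (F0' * Q + w e * (F1' * Q)) * (1 + w' e) := by gcongr
      _ ≤ (F0' * Q + w' e * (F1' * Q)) * (1 + w e) :=
          alg h2 (hw e (Finset.mem_insert_self e E))
      _ = (F0' + w' e * F1') * ((1 + w e) * Q) := by ring

theorem main : Pool.Agent.W823.QT.DOM_T := by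
  intro E w w' hw _ f hf
  exact dom E w w' hw f hf

end Pool.Agent.W311.QTDOM
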