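import Pool.Agent.W921.VP.DefsC

set_option autoImplicit false

namespace Pool.Agent.W311.VPRC

open FirstOrder Set
open Pool.Agent.W921.VP

theorem twF_equiv (h : S_SW) {L : FirstOrder.Language.{0, 0}} {M : Type} (S : L.Structure M)
    (F : Finset (Sym L)) : Equivalence (TwF S F) := by
  refine ⟨fun x R _ => (h L M S R.1 R.2).1.refl x, fun {x y} hxy R hR => ?_, fun {x y z} hxy hyz R hR => ?_⟩
  · exact (h L M S R.1 R.2).1.symm (hxy R hR)
  · exact (h L M S R.1 R.2).1.trans (hxy R hR) (hyz R hR)

theorem nonempty_equiv {α β : Type} (hα : Countable α) (hβ : Countable β)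
    (hab : ENat.card α = ENat.card β) : Nonempty (α ≃ β) := by
  rw [← Cardinal.eq]
  apply Cardinal.toENat_injOn
  · exact Cardinal.mk_le_aleph0_iff.mpr hα
  · exact Cardinal.mk_le_aleph0_iff.mpr hβ
  · simpa [ENat.card] using hab

theorem task (h : S_SW) : S_RC := by
  intro L _ M N S c hM hN hc F
  have heq := twF_equiv h S F
  let r : Setoid M := ⟨TwF S F, heq⟩
  have hf : ∀ q : Quotient r, Nonempty ({u : N // Quotient.mk r (c u) = q} ≃ {y : M // Quotient.mk r y = q}) := by
    intro q
    obtain ⟨x, rfl⟩ := Quotient.exists_rep q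
    apply nonempty_equiv inferInstance inferInstance
    have h1 := hc F x
    have e1 : {u : N | TwF S F (c u) x} = {u : N | Quotient.mk r (c u) = Quotient.mk r x} := by
      ext u
      exact ⟨fun hu => Quotient.sound hu, fun hu => Quotient.exact hu⟩
    have e2 : {y : M | TwF S F y x} = {y : M | Quotient.mk r y = Quotient.mk r x} := by
      ext u
      exact ⟨fun hu => Quotient.sound hu, fun hu => Quotient.exact hu⟩
    rw [e1, e2] at h1
    exact h1
  let g := fun q => Classical.choice (hf q)
  let e : N ≃ M := ((Equiv.sigmaFiberEquiv (fun u : N => Quotient.mk r (c u))).symm.trans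
    (Equiv.sigmaCongrRight g)).trans (Equiv.sigmaFiberEquiv (fun y : M => Quotient.mk r y))
  have he : ∀ u, Quotient.mk r (e u) = Quotient.mk r (c u) := by
    intro u
    exact (g (Quotient.mk r (c u)) ⟨u, rfl⟩).2
  have heT : ∀ u, TwF S F (e u) (c u) := fun u => Quotient.exact (he u)
  refine ⟨e, heT, ?_⟩
  intro R hR s
  have hE := (h L M S R.1 R.2).1
  constructor
  · rintro ⟨s', h1, h2, h3⟩
    refine ((h L M S R.1 R.2).2 s' (fun i => e (s i)) ?_ ?_).mp h3
    · intro i j
      rw [← h1 i j]
      exact e.injective.eq_iff.symm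
    · intro i
      exact hE.trans (h2 i) (hE.symm (heT (s i) R hR))
  · intro h3
    refine ⟨fun i => e (s i), ?_, ?_, h3⟩
    · intro i j
      exact e.injective.eq_iff.symm
    · intro i
      exact heT (s i) R hR

end Pool.Agent.W311.VPRC
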